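import Pool.Agent.D0H36.LW.Stm

/-!
# Project LW (helper36), module CBIN: the central binomial coefficient
-/

set_option autoImplicit false

namespace Pool.Agent.D0H28.LW

open Pool.Agent.D0H36.LW Nat

theorem cb (m : ℕ) : (Nat.centralBinom m) ^ 2 * (2 * m + 1) ≤ 16 ^ m := by
  induction m with
  | zero => simp
  | succ m ih =>
    have h := Nat.succ_mul_centralBinom_succ m
    -- (m+1) * cb (m+1) = 2 (2m+1) cb m
    have h2 : (m+1)^2 * ((Nat.centralBinom (m+1)) ^ 2 * (2 * (m+1) + 1)) =
        4 * (2*m+1)^2 * (Nat.centralBinom m)^2 * (2*m+3) := by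
      calc (m+1)^2 * ((Nat.centralBinom (m+1)) ^ 2 * (2 * (m+1) + 1)) 
          = ((m+1) * (Nat.centralBinom (m+1)))^2 * (2*m+3) := by ring
        _ = _ := by rw [h]; ring
    have h3 : (m+1)^2 * ((Nat.centralBinom (m+1)) ^ 2 * (2 * (m+1) + 1)) ≤ (m+1)^2 * 16^(m+1) := by
      rw [h2]
      calc 4 * (2*m+1)^2 * (Nat.centralBinom m)^2 * (2*m+3) 
          = (4 * (2*m+1) * (2*m+3)) * ((Nat.centralBinom m)^2 * (2*m+1)) := by ring
        _ ≤ (16 * (m+1)^2) * 16^m := by
            apply Nat.mul_le_mul _ ih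
            nlinarith
        _ = _ := by ring
    exact Nat.le_of_mul_le_mul_left h3 (by positivity)

theorem t_CBIN : S_CBIN := by
  intro s
  rcases Nat.even_or_odd' s with ⟨m, rfl | rfl⟩
  · have h := cb m
    rw [Nat.centralBinom_eq_two_mul_choose] at h
    have e : 2 * m / 2 = m := by omega
    rw [e]
    have : (4:ℕ)^(2*m) = 16^m := by rw [pow_mul]; norm_num
    rw [this]
    omega
  · have e : (2 * m + 1) / 2 = m := by omega
    rw [e]
    have h := cb (m+1)
    have h5 : Nat.centralBinom (m+1) = 2 * (2*m+1).choose m := by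
      rw [Nat.centralBinom_eq_two_mul_choose]
      have : 2 * (m+1) = (2*m+1) + 1 := by ring
      rw [this, Nat.choose_succ_succ]
      have h6 : (2*m+1).choose (m+1) = (2*m+1).choose m := by
        apply Nat.choose_symm_of_eq_add
        ring
      rw [h6]; ring
    rw [h5] at h
    have : (4:ℕ)^(2*m+1) = 4 * 16^m := by rw [pow_succ, pow_mul]; norm_num [mul_comm]
    rw [this]
    have h7 : (16:ℕ)^(m+1) = 16 * 16^m := by ring
    rw [h7] at h
    nlinarith [h, Nat.zero_le ((2*m+1).choose m ^ 2)]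

end Pool.Agent.D0H28.LW
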