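import Pool.Agent.D0H36.LW.Stm6

/-!
# Project LW (helper36), module CONN: the share of the connected planar graphs
-/

set_option autoImplicit false

namespace Pool.Agent.D0H28.LW

open Finset Pool.Agent.D0H36.BL Pool.Agent.D0H36.LW
open Pool.Agent.R814.BL (Cl)

section
variable {V : Type}

theorem reach_add {G : SimpleGraph V} {x y a b : V}
    (h : (G ⊔ SimpleGraph.edge x y).Reachable a b) :
    G.Reachable a b ∨ (G.Reachable a x ∧ G.Reachable y b) ∨ (G.Reachable a y ∧ G.Reachable x b) := by
  obtain ⟨w⟩ := h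
  induction w with
  | nil => exact Or.inl (SimpleGraph.Reachable.refl _)
  | @cons u v w hadj p ih =>
    rw [SimpleGraph.sup_adj, SimpleGraph.edge_adj] at hadj
    rcases hadj with h1 | ⟨⟨rfl, rfl⟩ | ⟨rfl, rfl⟩, h1⟩
    · have h2 : G.Reachable u v := h1.reachable
      rcases ih with h | ⟨h, h'⟩ | ⟨h, h'⟩
      · exact Or.inl (h2.trans h)
      · exact Or.inr (Or.inl ⟨h2.trans h, h'⟩)
      · exact Or.inr (Or.inr ⟨h2.trans h, h'⟩)
    · rcases ih with h | ⟨h, h'⟩ | ⟨h, h'⟩
      · exact Or.inr (Or.inl ⟨SimpleGraph.Reachable.refl _, h⟩)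
      · exact Or.inr (Or.inl ⟨SimpleGraph.Reachable.refl _, h'⟩)
      · exact Or.inl h'
    · rcases ih with h | ⟨h, h'⟩ | ⟨h, h'⟩
      · exact Or.inr (Or.inr ⟨SimpleGraph.Reachable.refl _, h⟩)
      · exact Or.inl h'
      · exact Or.inr (Or.inr ⟨SimpleGraph.Reachable.refl _, h'⟩)

/-- the number of components -/
noncomputable def comp (G : SimpleGraph V) : ℕ := Nat.card G.ConnectedComponent

theorem comp_add [Finite V] {G : SimpleGraph V} {x y : V} (h : ¬ G.Reachable x y) :
    comp (G ⊔ SimpleGraph.edge x y) + 1 = comp G := by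
  classical
  have hxy : x ≠ y := fun h' => h (h' ▸ SimpleGraph.Reachable.refl _)
  set G' := G ⊔ SimpleGraph.edge x y with hG'
  have hle : G ≤ G' := le_sup_left
  have hadj : G'.Adj x y := by
    rw [hG', SimpleGraph.sup_adj, SimpleGraph.edge_adj]
    exact Or.inr ⟨Or.inl ⟨rfl, rfl⟩, hxy⟩
  let f : {c : G.ConnectedComponent // c ≠ G.connectedComponentMk y} → G'.ConnectedComponent :=
    fun c => c.1.map (SimpleGraph.Hom.ofLE hle)
  have hf : Function.Bijective f := by
    constructor
    · rintro ⟨c, hc⟩ ⟨d, hd⟩ hcd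
      induction c using SimpleGraph.ConnectedComponent.ind with | _ a =>
      induction d using SimpleGraph.ConnectedComponent.ind with | _ b =>
      apply Subtype.ext
      have h1 : G'.Reachable a b := SimpleGraph.ConnectedComponent.exact hcd
      rcases reach_add h1 with h2 | ⟨h2, h3⟩ | ⟨h2, h3⟩
      · exact SimpleGraph.ConnectedComponent.sound h2
      · exact (hd (SimpleGraph.ConnectedComponent.sound h3.symm)).elim
      · exact (hc (SimpleGraph.ConnectedComponent.sound h2)).elim
    · intro c
      induction c using SimpleGraph.ConnectedComponent.ind with | _ v =>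
      by_cases hv : G.connectedComponentMk v = G.connectedComponentMk y
      · refine ⟨⟨G.connectedComponentMk x, fun h' => h (SimpleGraph.ConnectedComponent.exact h')⟩, ?_⟩
        have h1 : G.Reachable v y := SimpleGraph.ConnectedComponent.exact hv
        have h2 : G'.Reachable x v := (hadj.reachable).trans ((h1.mono hle).symm)
        exact SimpleGraph.ConnectedComponent.sound h2
      · exact ⟨⟨G.connectedComponentMk v, hv⟩, rfl⟩
  have h1 := Nat.card_congr (Equiv.ofBijective f hf)
  unfold comp
  rw [← h1]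
  have h2 : Finite G.ConnectedComponent := Quot.finite _
  have h3 : Fintype G.ConnectedComponent := Fintype.ofFinite _
  rw [Nat.card_eq_fintype_card, Nat.card_eq_fintype_card, Fintype.card_subtype_compl,
    Fintype.card_subtype_eq]
  have h4 : 0 < Fintype.card G.ConnectedComponent := Fintype.card_pos_iff.2 ⟨G.connectedComponentMk x⟩
  omega

theorem comp_le [Fintype V] [DecidableEq V] (G : SimpleGraph V) (x : V)
    [DecidablePred fun y => ¬ G.Reachable x y] :
    comp G ≤ (univ.filter (fun y => ¬ G.Reachable x y)).card + 1 := by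
  classical
  have h2 : Finite G.ConnectedComponent := Quot.finite _
  have h3 : Fintype G.ConnectedComponent := Fintype.ofFinite _
  have hinj : (univ.erase (G.connectedComponentMk x)).card ≤
      (univ.filter (fun y => ¬ G.Reachable x y)).card := by
    refine Finset.card_le_card_of_injOn (fun c => c.out) ?_ ?_
    · intro c hc
      have hc' := Finset.ne_of_mem_erase hc
      simp only [coe_filter, mem_univ, true_and, Set.mem_ofPred_eq]
      intro h
      apply hc'
      rw [← c.out_eq]
      exact (SimpleGraph.ConnectedComponent.sound h).symm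
    · intro c _ d _ hcd
      have h5 : (Quot.mk _ c.out : G.ConnectedComponent) = Quot.mk _ d.out := congrArg _ hcd
      have h6 : c = G.connectedComponentMk c.out := c.out_eq.symm
      have h7 : d = G.connectedComponentMk d.out := d.out_eq.symm
      rw [h6, h7]
      exact h5
  rw [Finset.card_erase_of_mem (mem_univ _), Finset.card_univ] at hinj
  unfold comp
  rw [Nat.card_eq_fintype_card]
  omega

end

theorem cl_add {V : Type} {G : SimpleGraph V} (hG : Cl V G) {x y : V} (h : ¬ G.Reachable x y) :
    Cl V (G ⊔ SimpleGraph.edge x y) := by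
  refine hCL.join V _ {v | G.Reachable x v} x y (SimpleGraph.Reachable.refl _) h ?_ ?_ ?_
  · intro a b ha hb hab
    rw [SimpleGraph.sup_adj, SimpleGraph.edge_adj] at hab
    rcases hab with h1 | ⟨⟨h1, h2⟩ | ⟨h1, h2⟩, h3⟩
    · exact (hb (SimpleGraph.Reachable.trans ha h1.reachable)).elim
    · exact ⟨h1, h2⟩
    · exact (h (by rw [← h1]; exact ha)).elim
  · refine hCL.mono V G _ ?_ hG
    rintro a b ⟨ha, hb, hab⟩
    rw [SimpleGraph.sup_adj, SimpleGraph.edge_adj] at hab
    rcases hab with h1 | ⟨⟨h1, h2⟩ | ⟨h1, h2⟩, h3⟩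
    · exact h1
    · exact (h (by rw [← h2]; exact hb)).elim
    · exact (h (by rw [← h1]; exact ha)).elim
  · refine hCL.mono V G _ ?_ hG
    rintro a b ⟨ha, hb, hab⟩
    rw [SimpleGraph.sup_adj, SimpleGraph.edge_adj] at hab
    rcases hab with h1 | ⟨⟨h1, h2⟩ | ⟨h1, h2⟩, h3⟩
    · exact h1
    · exact (ha (by rw [h1]; exact SimpleGraph.Reachable.refl _)).elim
    · exact (hb (by rw [h2]; exact SimpleGraph.Reachable.refl _)).elim

open Classical in
/-- the planar graphs on `Fin n` with `k` components -/
noncomputable def NN (n k : ℕ) : Finset (SimpleGraph (Fin n)) :=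
  univ.filter (fun G => Cl (Fin n) G ∧ comp G = k)

open Classical in
theorem step (n k : ℕ) (hn : 1 ≤ n) : k * (NN n (k + 1)).card ≤ 10 * (NN n k).card := by
  have h1 : ((NN n (k + 1)).sigma (fun G => univ.filter
      (fun p : Fin n × Fin n => ¬ G.Reachable p.1 p.2))).card ≤
      ((NN n k).sigma (fun G => univ.filter (fun p : Fin n × Fin n => G.Adj p.1 p.2))).card := by
    refine Finset.card_le_card_of_injOn
      (fun t => ⟨t.1 ⊔ SimpleGraph.edge t.2.1 t.2.2, t.2⟩) ?_ ?_
    · rintro ⟨G, p⟩ ht
      simp only [NN, coe_sigma, Set.mem_sigma_iff, coe_filter, mem_univ, true_and,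
        Set.mem_ofPred_eq] at ht ⊢
      obtain ⟨⟨hG, hk⟩, hp⟩ := ht
      have hxy : p.1 ≠ p.2 := fun h' => hp (h' ▸ SimpleGraph.Reachable.refl _)
      refine ⟨⟨cl_add hG hp, ?_⟩, ?_⟩
      · have := comp_add hp
        omega
      · rw [SimpleGraph.sup_adj, SimpleGraph.edge_adj]
        exact Or.inr ⟨Or.inl ⟨rfl, rfl⟩, hxy⟩
    · rintro ⟨G, p⟩ hs ⟨H, q⟩ ht heq
      simp only [coe_sigma, Set.mem_sigma_iff, coe_filter, mem_univ, true_and,
        Set.mem_ofPred_eq] at hs ht
      simp only [Sigma.mk.injEq, heq_eq_eq] at heq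
      obtain ⟨h2, rfl⟩ := heq
      have h3 : ∀ (A B : SimpleGraph (Fin n)), ¬ A.Reachable p.1 p.2 →
          A ⊔ SimpleGraph.edge p.1 p.2 = B ⊔ SimpleGraph.edge p.1 p.2 → A ≤ B := by
        intro A B hA hAB a b hab
        have h4 : (B ⊔ SimpleGraph.edge p.1 p.2).Adj a b := by
          rw [← hAB]; exact Or.inl hab
        rw [SimpleGraph.sup_adj, SimpleGraph.edge_adj] at h4
        rcases h4 with h5 | ⟨⟨h5, h6⟩ | ⟨h5, h6⟩, h7⟩
        · exact h5
        · exact (hA (by rw [← h5, ← h6]; exact hab.reachable)).elim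
        · exact (hA (by rw [← h5, ← h6]; exact hab.symm.reachable)).elim
      have h8 : G = H := le_antisymm (h3 G H hs.2 h2) (h3 H G ht.2 h2.symm)
      rw [h8]
  rw [Finset.card_sigma, Finset.card_sigma] at h1
  have h2 : (NN n (k + 1)).card * (n * k) ≤ ∑ G ∈ NN n (k + 1), (univ.filter
      (fun p : Fin n × Fin n => ¬ G.Reachable p.1 p.2)).card := by
    rw [← smul_eq_mul, ← Finset.sum_const]
    refine Finset.sum_le_sum fun G hG => ?_
    have hk : comp G = k + 1 := (Finset.mem_filter.1 hG).2.2
    have h3 : (univ.filter (fun p : Fin n × Fin n => ¬ G.Reachable p.1 p.2)).card =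
        ∑ x : Fin n, (univ.filter (fun y : Fin n => ¬ G.Reachable x y)).card := by
      rw [Finset.card_filter, ← Finset.univ_product_univ, Finset.sum_product]
      refine Finset.sum_congr rfl fun x _ => ?_
      rw [Finset.card_filter]
    rw [h3]
    calc n * k = ∑ _x : Fin n, k := by simp
      _ ≤ _ := Finset.sum_le_sum fun x _ => by
          have := comp_le G x
          omega
  have h3 : ∑ G ∈ NN n k, (univ.filter (fun p : Fin n × Fin n => G.Adj p.1 p.2)).card ≤
      (NN n k).card * (10 * n) := by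
    rw [← smul_eq_mul, ← Finset.sum_const]
    refine Finset.sum_le_sum fun G hG => ?_
    have hC : Cl (Fin n) G := (Finset.mem_filter.1 hG).2.1
    have := Pool.Agent.D0H22.BL.b1 hCL G hC n univ (by simp)
    unfold Pool.Agent.D0H22.BL.e2 at this
    rw [Finset.univ_product_univ] at this
    simp only [Finset.card_univ, Fintype.card_fin] at this
    refine le_trans (le_of_eq ?_) (le_trans this (by omega))
    congr 1
  have h4 : n * (k * (NN n (k + 1)).card) ≤ n * (10 * (NN n k).card) := by
    calc n * (k * (NN n (k + 1)).card) = (NN n (k + 1)).card * (n * k) := by ring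
      _ ≤ _ := h2.trans (h1.trans h3)
      _ = _ := by ring
  exact Nat.le_of_mul_le_mul_left h4 hn

theorem fact (n : ℕ) (hn : 1 ≤ n) (k : ℕ) :
    k.factorial * (NN n (k + 1)).card ≤ 10 ^ k * (NN n 1).card := by
  induction k with
  | zero => simp
  | succ k ih =>
    calc (k + 1).factorial * (NN n (k + 1 + 1)).card
        = k.factorial * ((k + 1) * (NN n (k + 1 + 1)).card) := by
          rw [Nat.factorial_succ]; ring
      _ ≤ k.factorial * (10 * (NN n (k + 1)).card) :=
          Nat.mul_le_mul_left _ (step n (k + 1) hn)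
      _ = 10 * (k.factorial * (NN n (k + 1)).card) := by ring
      _ ≤ 10 * (10 ^ k * (NN n 1).card) := Nat.mul_le_mul_left _ ih
      _ = _ := by ring

theorem t_CONN : S_CONN := by
  classical
  refine ⟨⌈Real.exp 10⌉₊, fun n hn => ?_⟩
  have : Nonempty (Fin n) := ⟨⟨0, hn⟩⟩
  have hcomp : ∀ G : SimpleGraph (Fin n), 1 ≤ comp G ∧ comp G ≤ n := by
    intro G
    have h2 : Finite G.ConnectedComponent := Quot.finite _
    constructor
    · exact Nat.card_pos
    · unfold comp
      calc Nat.card G.ConnectedComponent ≤ Nat.card (Fin n) :=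
            Nat.card_le_card_of_surjective G.connectedComponentMk Quot.mk_surjective
        _ = n := by simp
  have h1 : num Cl n = ∑ k ∈ range n, (NN n (k + 1)).card := by
    unfold num
    rw [cnt_eq]
    rw [Finset.card_eq_sum_card_fiberwise (f := fun G => comp G - 1) (t := range n)]
    · refine Finset.sum_congr rfl fun k _ => ?_
      congr 1
      ext G
      simp only [NN, Finset.mem_filter, mem_univ, true_and, and_true]
      have := hcomp G
      constructor
      · rintro ⟨h, h'⟩; exact ⟨h, by omega⟩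
      · rintro ⟨h, h'⟩; exact ⟨h, by omega⟩
    · intro G _
      have := hcomp G
      simp only [coe_range, Set.mem_Iio]
      omega
  have h2 : (NN n 1).card ≤ cnt Cl n (fun G => G.Connected) := by
    rw [cnt_eq]
    refine Finset.card_le_card fun G hG => ?_
    obtain ⟨h3, h4⟩ := (Finset.mem_filter.1 hG).2
    refine Finset.mem_filter.2 ⟨mem_univ _, h3, ?_⟩
    have h5 := Nat.card_eq_one_iff_unique.1 h4
    have h6 : G.Preconnected := by
      intro a b
      have h7 := h5.1
      exact SimpleGraph.ConnectedComponent.exact (Subsingleton.elim _ _)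
    exact { preconnected := h6, nonempty := this }
  have h3 : ∀ k, ((NN n (k + 1)).card : ℝ) ≤ 10 ^ k / k.factorial * (NN n 1).card := by
    intro k
    have h4 : ((k.factorial * (NN n (k + 1)).card : ℕ) : ℝ) ≤ ((10 ^ k * (NN n 1).card : ℕ) : ℝ) := by
      exact_mod_cast fact n hn k
    push_cast at h4
    have h5 : (0 : ℝ) < k.factorial := by exact_mod_cast k.factorial_pos
    rw [div_mul_eq_mul_div, le_div_iff₀ h5]
    linarith
  have h4 : (num Cl n : ℝ) ≤ Real.exp 10 * (NN n 1).card := by
    rw [h1]
    push_cast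
    calc ∑ k ∈ range n, ((NN n (k + 1)).card : ℝ)
        ≤ ∑ k ∈ range n, 10 ^ k / k.factorial * ((NN n 1).card : ℝ) :=
          Finset.sum_le_sum fun k _ => h3 k
      _ = (∑ k ∈ range n, (10 : ℝ) ^ k / k.factorial) * (NN n 1).card := by
          rw [Finset.sum_mul]
      _ ≤ _ := by
          apply mul_le_mul_of_nonneg_right _ (Nat.cast_nonneg _)
          exact Real.sum_le_exp_of_nonneg (by norm_num) n
  have h5 : (num Cl n : ℝ) ≤ ((⌈Real.exp 10⌉₊ * cnt Cl n (fun G => G.Connected) : ℕ) : ℝ) := by
    push_cast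
    refine h4.trans ?_
    have h6 : (((NN n 1).card : ℕ) : ℝ) ≤ (cnt Cl n (fun G => G.Connected) : ℝ) := by
      exact_mod_cast h2
    have h7 := Nat.le_ceil (Real.exp 10)
    calc Real.exp 10 * (NN n 1).card ≤ Real.exp 10 * cnt Cl n (fun G => G.Connected) :=
          mul_le_mul_of_nonneg_left h6 (Real.exp_pos _).le
      _ ≤ _ := mul_le_mul_of_nonneg_right h7 (Nat.cast_nonneg _)
  exact_mod_cast h5

end Pool.Agent.D0H28.LW
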