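import Pool.Agent.D0H36.LW.Stm

/-!
# Project LW (helper36), module FG: equidistribution in finite groups
-/

set_option autoImplicit false

namespace Pool.Agent.D0H28.LW

open Finset

/-- a finite family of exponentially small bounds -/
theorem common {ι : Type} [Fintype ι] (b : ι → ℕ → ℝ) (N : ℕ → ℝ) (hN : ∀ n, 0 ≤ N n)
    (h : ∀ i, ∃ c : ℝ, 0 < c ∧ ∃ n₀ : ℕ, ∀ n : ℕ, n₀ ≤ n → b i n ≤ Real.exp (-(c * n)) * N n) :
    ∃ c : ℝ, 0 < c ∧ ∃ n₀ : ℕ, ∀ n : ℕ, n₀ ≤ n → ∀ i, b i n ≤ Real.exp (-(c * n)) * N n := by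
  classical
  choose c hc n₀ hn using h
  rcases isEmpty_or_nonempty ι with hι | hι
  · exact ⟨1, one_pos, 0, fun n _ i => (hι.false i).elim⟩
  · obtain ⟨i₀, hi₀⟩ := Finite.exists_min c
    refine ⟨c i₀, hc i₀, Finset.univ.sup n₀, fun n hn' i => (hn i n ?_).trans ?_⟩
    · exact (Finset.le_sup (Finset.mem_univ i)).trans hn'
    · apply mul_le_mul_of_nonneg_right _ (hN n)
      apply Real.exp_le_exp.2
      have := mul_le_mul_of_nonneg_right (hi₀ i) (Nat.cast_nonneg n : (0:ℝ) ≤ n)
      linarith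

open Classical in
theorem core {M : Type} [CommGroup M] [Finite M] (X : ℕ → Type) (S : ∀ n, Finset (X n))
    (f : ∀ n, X n → M) (v : Set M) (hmem : ∀ n, ∀ G ∈ S n, f n G ∈ v)
    (hpos : ∀ n, (S n).Nonempty)
    (dich : ∀ ψ : AddChar (Additive M) ℂ, (∀ a ∈ v, ψ (Additive.ofMul a) = 1) ∨
      ∃ c : ℝ, 0 < c ∧ ∃ n₀ : ℕ, ∀ n : ℕ, n₀ ≤ n →
        ‖∑ G ∈ S n, ψ (Additive.ofMul (f n G))‖ ≤ Real.exp (-(c * n)) * (S n).card)
    (a : M) (ha : a ∈ v) : ∃ c : ℝ, 0 < c ∧ ∃ n₀ : ℕ, ∀ n : ℕ, n₀ ≤ n →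
      |(((S n).filter (fun G => f n G = a)).card : ℝ) / (S n).card - 1 / (v.ncard : ℝ)| ≤
        Real.exp (-(c * n)) := by
  have : Fintype M := Fintype.ofFinite M
  have : Fintype (Additive M) := Fintype.ofFinite _
  set k : ℝ := (Fintype.card (Additive M) : ℝ) with hk
  have hk0 : 0 < k := by rw [hk]; exact_mod_cast Fintype.card_pos
  let T : Finset (AddChar (Additive M) ℂ) := univ.filter (fun ψ => ∀ a ∈ v, ψ (Additive.ofMul a) = 1)
  obtain ⟨c, hc, n₀, hn⟩ := common
    (fun (ψ : {ψ : AddChar (Additive M) ℂ // ψ ∉ T}) n => ‖∑ G ∈ S n, ψ.1 (Additive.ofMul (f n G))‖)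
    (fun n => ((S n).card : ℝ)) (fun n => Nat.cast_nonneg _) (fun ψ => by
      rcases dich ψ.1 with h | h
      · exact (ψ.2 (Finset.mem_filter.2 ⟨Finset.mem_univ _, h⟩)).elim
      · exact h)
  have hcardT : ((univ \ T).card : ℝ) ≤ k := by
    have h1 : (univ \ T).card ≤ Fintype.card (AddChar (Additive M) ℂ) := Finset.card_le_univ _
    rw [hk]
    have h2 : Fintype.card (AddChar (Additive M) ℂ) = Fintype.card (Additive M) :=
      AddChar.card_eq
    rw [← h2]
    exact_mod_cast h1
  have main : ∀ b ∈ v, ∀ n, n₀ ≤ n →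
      |(((S n).filter (fun G => f n G = b)).card : ℝ) / (S n).card - (T.card : ℝ) / k| ≤
        Real.exp (-(c * n)) := by
    intro b hb n hnn
    have hS0 : (0 : ℝ) < (S n).card := by exact_mod_cast (hpos n).card_pos
    -- the count by characters
    have h1 : ((k : ℝ) : ℂ) * (((S n).filter (fun G => f n G = b)).card : ℂ) =
        ∑ ψ : AddChar (Additive M) ℂ, ψ (-(Additive.ofMul b)) *
          ∑ G ∈ S n, ψ (Additive.ofMul (f n G)) := by
      have h2 : ∀ G, ∑ ψ : AddChar (Additive M) ℂ, ψ (Additive.ofMul (f n G) - Additive.ofMul b) =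
          if f n G = b then ((k : ℝ) : ℂ) else 0 := by
        intro G
        rw [AddChar.sum_apply_eq_ite]
        have h3 : (Additive.ofMul (f n G) - Additive.ofMul b = 0) ↔ f n G = b := by
          rw [sub_eq_zero]; exact Additive.ofMul.injective.eq_iff
        by_cases h4 : f n G = b
        · rw [if_pos (h3.2 h4), if_pos h4, hk]; simp
        · rw [if_neg (fun h => h4 (h3.1 h)), if_neg h4]
      calc ((k : ℝ) : ℂ) * (((S n).filter (fun G => f n G = b)).card : ℂ)
          = ∑ G ∈ S n, (if f n G = b then ((k : ℝ) : ℂ) else 0) := by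
            rw [← Finset.sum_filter, Finset.sum_const, nsmul_eq_mul, mul_comm]
        _ = ∑ G ∈ S n, ∑ ψ : AddChar (Additive M) ℂ,
              ψ (Additive.ofMul (f n G) - Additive.ofMul b) :=
            Finset.sum_congr rfl fun G _ => (h2 G).symm
        _ = _ := by
            rw [Finset.sum_comm]
            refine Finset.sum_congr rfl fun ψ _ => ?_
            rw [Finset.mul_sum]
            refine Finset.sum_congr rfl fun G _ => ?_
            rw [sub_eq_add_neg, AddChar.map_add_eq_mul, mul_comm]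
    have h5 : ((k : ℝ) : ℂ) * (((S n).filter (fun G => f n G = b)).card : ℂ) -
        (T.card : ℂ) * ((S n).card : ℂ) =
        ∑ ψ ∈ univ \ T, ψ (-(Additive.ofMul b)) * ∑ G ∈ S n, ψ (Additive.ofMul (f n G)) := by
      rw [h1, ← Finset.sum_sdiff (Finset.subset_univ T)]
      have h6 : ∑ ψ ∈ T, ψ (-(Additive.ofMul b)) * ∑ G ∈ S n, ψ (Additive.ofMul (f n G)) =
          (T.card : ℂ) * ((S n).card : ℂ) := by
        rw [Finset.sum_congr rfl (g := fun _ => ((S n).card : ℂ))]
        · rw [Finset.sum_const, nsmul_eq_mul]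
        · intro ψ hψ
          have h7 := (Finset.mem_filter.1 hψ).2
          rw [AddChar.map_neg_eq_inv, h7 b hb, inv_one, one_mul,
            Finset.sum_congr rfl (g := fun _ => (1 : ℂ)) (fun G hG => h7 _ (hmem n G hG))]
          simp
      rw [h6]; ring
    have h8 : |k * (((S n).filter (fun G => f n G = b)).card : ℝ) - (T.card : ℝ) * (S n).card| ≤
        k * (Real.exp (-(c * n)) * (S n).card) := by
      have h9 : ‖((k : ℝ) : ℂ) * (((S n).filter (fun G => f n G = b)).card : ℂ) -
        (T.card : ℂ) * ((S n).card : ℂ)‖ =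
        |k * (((S n).filter (fun G => f n G = b)).card : ℝ) - (T.card : ℝ) * (S n).card| := by
        rw [← Real.norm_eq_abs, ← Complex.norm_real]
        push_cast
        rfl
      rw [← h9, h5]
      calc ‖∑ ψ ∈ univ \ T, ψ (-(Additive.ofMul b)) * ∑ G ∈ S n, ψ (Additive.ofMul (f n G))‖
          ≤ ∑ ψ ∈ univ \ T, ‖ψ (-(Additive.ofMul b)) * ∑ G ∈ S n, ψ (Additive.ofMul (f n G))‖ :=
            norm_sum_le _ _
        _ ≤ ∑ ψ ∈ univ \ T, Real.exp (-(c * n)) * (S n).card := by
            refine Finset.sum_le_sum fun ψ hψ => ?_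
            rw [norm_mul, AddChar.norm_apply, one_mul]
            exact hn n hnn ⟨ψ, (Finset.mem_sdiff.1 hψ).2⟩
        _ = ((univ \ T).card : ℝ) * (Real.exp (-(c * n)) * (S n).card) := by
            rw [Finset.sum_const, nsmul_eq_mul]
        _ ≤ _ := by
            apply mul_le_mul_of_nonneg_right hcardT (by positivity)
    have h10 : (((S n).filter (fun G => f n G = b)).card : ℝ) / (S n).card - (T.card : ℝ) / k =
        (k * (((S n).filter (fun G => f n G = b)).card : ℝ) - (T.card : ℝ) * (S n).card) /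
          (k * (S n).card) := by
      field_simp
    rw [h10, abs_div, abs_of_pos (by positivity : 0 < k * ((S n).card : ℝ)),
      div_le_iff₀ (by positivity)]
    calc _ ≤ _ := h8
      _ = _ := by ring
  -- the constant
  have hvf : v.Finite := Set.toFinite v
  set V : Finset M := hvf.toFinset with hV
  have hVc : v.ncard = V.card := Set.ncard_eq_toFinset_card v hvf
  have hV0 : (0 : ℝ) < V.card := by
    have : 0 < V.card := Finset.card_pos.2 ⟨a, hvf.mem_toFinset.2 ha⟩
    exact_mod_cast this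
  have hsum : ∀ n, ∑ b ∈ V, (((S n).filter (fun G => f n G = b)).card : ℝ) / (S n).card = 1 := by
    intro n
    have hS0 : (0 : ℝ) < (S n).card := by exact_mod_cast (hpos n).card_pos
    rw [← Finset.sum_div, div_eq_one_iff_eq hS0.ne']
    have := Finset.card_eq_sum_card_fiberwise (s := S n) (t := V) (f := f n)
      (fun G hG => hvf.mem_toFinset.2 (hmem n G hG))
    rw [this]
    push_cast
    rfl
  have hlim : ∀ n, n₀ ≤ n → |1 - (V.card : ℝ) * ((T.card : ℝ) / k)| ≤ V.card * Real.exp (-(c * n)) := by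
    intro n hnn
    have e : 1 - (V.card : ℝ) * ((T.card : ℝ) / k) =
        ∑ b ∈ V, ((((S n).filter (fun G => f n G = b)).card : ℝ) / (S n).card - (T.card : ℝ) / k) := by
      rw [Finset.sum_sub_distrib, hsum, Finset.sum_const, nsmul_eq_mul]
    rw [e]
    refine (Finset.abs_sum_le_sum_abs _ _).trans ?_
    rw [← nsmul_eq_mul, ← Finset.sum_const]
    exact Finset.sum_le_sum fun b hb => main b (hvf.mem_toFinset.1 hb) n hnn
  have hz : Filter.Tendsto (fun n : ℕ => (V.card : ℝ) * Real.exp (-(c * n))) Filter.atTop (nhds 0) := by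
    rw [show (0:ℝ) = (V.card : ℝ) * 0 by ring]
    apply Filter.Tendsto.const_mul
    apply Real.tendsto_exp_neg_atTop_nhds_zero.comp
    exact tendsto_natCast_atTop_atTop.const_mul_atTop hc
  have h0 : |1 - (V.card : ℝ) * ((T.card : ℝ) / k)| ≤ 0 :=
    ge_of_tendsto hz (Filter.eventually_atTop.2 ⟨n₀, fun n hn => hlim n hn⟩)
  have h1 : (V.card : ℝ) * ((T.card : ℝ) / k) = 1 := by
    have := abs_nonpos_iff.1 h0
    linarith
  have h2 : (T.card : ℝ) / k = 1 / (v.ncard : ℝ) := by
    rw [hVc, eq_div_iff hV0.ne', mul_comm]; exact h1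
  refine ⟨c, hc, n₀, fun n hnn => ?_⟩
  rw [← h2]
  exact main a ha n hnn

open Polynomial Pool.Agent.H207R2.BL Pool.Agent.D0H36.BL Pool.Agent.D0H36.LW
open Pool.Agent.R814.BL (Cl)

theorem t_FG : S_UNI → S_TRIV → S_FG := by
  classical
  intro hU hT M _ _ φ hφ hX hX1 a ha
  have hnum : ∀ n, num Cl n = (univ.filter (fun G : SimpleGraph (Fin n) => Cl (Fin n) G)).card := by
    intro n
    unfold num
    rw [cnt_eq]
    congr 1
    ext G
    simp
  have hcnt : ∀ n, cnt Cl n (fun G => φ (chr G) = a) =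
      ((univ.filter (fun G : SimpleGraph (Fin n) => Cl (Fin n) G)).filter
        (fun G => φ (chr G) = a)).card := by
    intro n
    rw [cnt_eq, Finset.filter_filter]
  have key := core (M := M) (fun n => SimpleGraph (Fin n))
    (fun n => univ.filter (fun G : SimpleGraph (Fin n) => Cl (Fin n) G))
    (fun n G => φ (chr G)) (vals φ)
    (fun n G hG => ⟨Fin n, inferInstance, G, (Finset.mem_filter.1 hG).2, rfl⟩)
    (fun n => by
      rw [← Finset.card_pos, ← hnum]
      exact hNP n)
    (fun ψ => by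
      let χ : AddChar (Additive M) Circle := AddChar.circleEquivComplex.symm ψ
      have hχ : ∀ x, ((χ x : Circle) : ℂ) = ψ x := by
        intro x
        have h1 : AddChar.circleEquivComplex χ = ψ :=
          AddChar.circleEquivComplex.apply_symm_apply ψ
        rw [← h1]
        rfl
      let φ' : ℝ[X] → Circle := fun p => χ (Additive.ofMul (φ p))
      have hφ' : IsMul φ' := by
        obtain ⟨S, h1, h2, h3, h4, h5⟩ := hφ
        refine ⟨S, h1, h2, h3, h4, fun p hp q hq => ?_⟩
        change χ (Additive.ofMul (φ (p * q))) = _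
        rw [h5 p hp q hq, ofMul_mul, AddChar.map_add_eq_mul]
      by_cases ht : Triv φ'
      · left
        rintro b ⟨V, _, G, hG, rfl⟩
        obtain ⟨c, d, -, -, -, h6⟩ := hT Circle φ' hφ' ht V G hG
        have h7 : φ' X = 1 := by
          change χ (Additive.ofMul (φ X)) = 1
          rw [hX, ofMul_one, AddChar.map_zero_eq_one]
        have h8 : φ' (X - 1) = 1 := by
          change χ (Additive.ofMul (φ (X - 1))) = 1
          rw [hX1, ofMul_one, AddChar.map_zero_eq_one]
        rw [h7, h8, one_pow, one_pow, one_mul] at h6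
        rw [← hχ]
        have h9 : χ (Additive.ofMul (φ (chr G))) = 1 := h6
        rw [h9]; rfl
      · right
        obtain ⟨c, hc, n₀, h⟩ := hU φ' hφ' ht
        refine ⟨c, hc, n₀, fun n hn => ?_⟩
        have h1 := h n hn
        rw [hnum] at h1
        refine le_trans (le_of_eq ?_) h1
        congr 1)
    a ha
  obtain ⟨c, hc, n₀, h⟩ := key
  refine ⟨c, hc, n₀, fun n hn => ?_⟩
  unfold share
  rw [hcnt, hnum]
  exact h n hn

end Pool.Agent.D0H28.LW
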